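import Mathlib
import Pool.Agent.Run7.h407.X.NSf

/-!
# Blow-up for axisymmetric Navier-Stokes equations with doubly exponentially sparse constraints

The axisymmetric Navier-Stokes equations on `ℝ³` (swirl allowed) are projected orthogonally on a
space `W` of square integrable divergence-free axisymmetric fields: the velocity is in `W` and the
equations are tested with all fields of `W`. The space `W` may be very large: all square integrable
divergence-free axisymmetric fields which are orthogonal to axisymmetric test fields `g n i`,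
`n ≥ 0`, `i < 3`, where `g n i` is supported in the ball `|x| ≤ 2^(-q^n)`, `q > 1`. In other words
there are only `O(log log (1/s))` scalar constraints which are not supported in the ball `|x| < s`.
-/

namespace Pool.Agent.Results.MP_09540e_an.AxisymmetricLogLog

open Set Filter Topology MeasureTheory
open scoped ContDiff

/-- Points and vectors of `ℝ³` (with the maximum norm); the third axis is the axis of symmetry. -/
abbrev E3 : Type := Fin 3 → ℝ

/-- The rotation by the angle `θ` about the third coordinate axis. -/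
noncomputable def rot (θ : ℝ) (x : E3) : E3 :=
  ![Real.cos θ * x 0 - Real.sin θ * x 1, Real.sin θ * x 0 + Real.cos θ * x 1, x 2]

/-- The vector field `u` commutes with all rotations about the third axis, that is, its cylindrical
components do not depend on the angle (the swirl component is allowed). -/
def IsAxisymmetric (u : E3 → E3) : Prop := ∀ θ x, u (rot θ x) = rot θ (u x)

/-- The derivative of a scalar function in the direction of the `j`-th axis. -/
noncomputable def pderiv (j : Fin 3) (f : E3 → ℝ) (x : E3) : ℝ := fderiv ℝ f x (Pi.single j 1)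

/-- The divergence of a vector field. -/
noncomputable def divergence (u : E3 → E3) (x : E3) : ℝ := ∑ i, pderiv i (fun y => u y i) x

/-- The `L²` inner product `∫ u · v dx`. -/
noncomputable def innerL2 (u v : E3 → E3) : ℝ := ∫ x, ∑ i, u x i * v x i

/-- The Dirichlet form `∫ ∇u : ∇v dx`. -/
noncomputable def dirichlet (u v : E3 → E3) : ℝ :=
  ∫ x, ∑ i, ∑ j, pderiv j (fun y => u y i) x * pderiv j (fun y => v y i) x

/-- The `i`-th component of `∂ₜu + (u·∇)u - ν Δu` at time `t` and position `x`. -/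
noncomputable def residual (ν : ℝ) (u : ℝ → E3 → E3) (t : ℝ) (x : E3) (i : Fin 3) : ℝ :=
  deriv (fun s => u s x i) t + ∑ j, u t x j * pderiv j (fun y => u t y i) x
    - ν * ∑ j, pderiv j (pderiv j (fun y => u t y i)) x

/-- Square integrable fields whose divergence vanishes in the sense of distributions. -/
structure IsSolenoidal (w : E3 → E3) : Prop where
  memL2 : ∀ i, MemLp (fun x => w x i) 2 volume
  div_free : ∀ φ : E3 → ℝ, ContDiff ℝ ∞ φ → HasCompactSupport φ →
    ∫ x, ∑ i, w x i * pderiv i φ x = 0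

/-- The constraints: `w` is orthogonal to all the fields `g n i`. -/
def Constrained (g : ℕ → Fin 3 → E3 → E3) (w : E3 → E3) : Prop :=
  ∀ (n : ℕ) (i : Fin 3), innerL2 w (g n i) = 0

/-- The linear spaces `W` of square integrable divergence-free axisymmetric fields satisfying the
constraints which contain all smooth compactly supported fields of the form `∑ c_n p_n`. -/
structure IsSpace (p : ℕ → E3 → E3) (g : ℕ → Fin 3 → E3 → E3) (W : Submodule ℝ (E3 → E3)) :
    Prop where
  upper : ∀ w ∈ W, IsSolenoidal w ∧ IsAxisymmetric w ∧ Constrained g w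
  lower : ∀ v : E3 → E3, ContDiff ℝ ∞ v → HasCompactSupport v →
    (∃ c : ℕ → ℝ, ∀ x, HasSum (fun n => c n • p n x) (v x)) → v ∈ W

/-- `f` is square integrable and `∫ f² ≤ C`. -/
def SqBound (C : ℝ) (f : E3 → ℝ) : Prop := MemLp f 2 volume ∧ ∫ x, f x ^ 2 ≤ C

/-- `u` is a solution on `[0,T)` of the Navier-Stokes equations projected on the space `W`:
it is smooth on `[0,T) × ℝ³` up to `t = 0`; `u(t)` is in `W`; `u` is bounded, and `u`, its first
and second derivatives in `x` and its time derivative are bounded in `L²`, uniformly for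
`0 ≤ t ≤ s` for every `s < T`; and for `0 < t < T` the residual `∂ₜu + (u·∇)u - ν Δu` is
orthogonal to `W` (the pressure drops out, since the fields in `W` are divergence-free). -/
structure IsProjected (W : Submodule ℝ (E3 → E3)) (ν T : ℝ) (u : ℝ → E3 → E3) : Prop where
  smooth : ContDiffOn ℝ ∞ (fun z : ℝ × E3 => u z.1 z.2) (Ico 0 T ×ˢ univ)
  mem : ∀ t ∈ Ico 0 T, u t ∈ W
  bound : ∀ s ∈ Ico 0 T, ∃ C : ℝ, ∀ t ∈ Icc 0 s, (∀ x, ‖u t x‖ ≤ C) ∧
    ∀ i, SqBound C (fun x => u t x i) ∧ (∀ j, SqBound C (pderiv j (fun y => u t y i))) ∧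
      (∀ j k, SqBound C (pderiv j (pderiv k (fun y => u t y i)))) ∧
      (0 < t → SqBound C (fun x => deriv (fun s => u s x i) t))
  eqn : ∀ t ∈ Ioo 0 T, ∀ w ∈ W, ∫ x, ∑ i, residual ν u t x i * w x i = 0

/-- The circulation `Γ = r u_θ = x₀ v₁ - x₁ v₀` of the vector `v` at the point `x`. -/
def circulation (v x : E3) : ℝ := x 0 * v 1 - x 1 * v 0

open Pool.Agent.Run7.h407 Pool.Agent.Run7.h407.G in
theorem IsSpace.isSpG {p : ℕ → E3 → E3} {g : ℕ → Fin 3 → E3 → E3} {W : Submodule ℝ (E3 → E3)}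
    (h : IsSpace p g W) : IsSpG p g W :=
  ⟨fun w hw => (h.upper w hw).1.memL2, fun w hw => (h.upper w hw).1.div_free,
      fun w hw => (h.upper w hw).2.2, h.lower⟩

open Pool.Agent.Run7.h407 in
theorem proj_iff {W : Submodule ℝ (E3 → E3)} {ν T : ℝ} {u : ℝ → E3 → E3} :
    IsProjected W ν T u ↔ IsProj W ν T u :=
  ⟨fun h => ⟨⟨h.smooth, h.bound⟩, h.mem, h.eqn⟩, fun h => ⟨h.cls.sm, h.mem, h.cls.bd, h.eqn⟩⟩

/-- The bound of the circulation which follows from the bound of the velocity. -/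
theorem circ_le {v x : E3} {C δ : ℝ} (hδ : 0 ≤ δ) (h : ‖v‖ * ‖x‖ ^ (1 + δ) ≤ C) :
    |circulation v x| * (max |x 0| |x 1|) ^ δ ≤ 2 * C := by
  set m := max |x 0| |x 1| with hm
  have hm0 : 0 ≤ m := (abs_nonneg _).trans (le_max_left _ _)
  have hmx : m ≤ ‖x‖ := by
    apply max_le
    · rw [← Real.norm_eq_abs]
      exact norm_le_pi_norm x 0
    · rw [← Real.norm_eq_abs]
      exact norm_le_pi_norm x 1
  have h1 : |circulation v x| ≤ 2 * (m * ‖v‖) := by
    have a0 : |v 0| ≤ ‖v‖ := by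
      rw [← Real.norm_eq_abs]
      exact norm_le_pi_norm v 0
    have a1 : |v 1| ≤ ‖v‖ := by
      rw [← Real.norm_eq_abs]
      exact norm_le_pi_norm v 1
    calc |circulation v x| ≤ |x 0 * v 1| + |x 1 * v 0| := abs_sub _ _
      _ = |x 0| * |v 1| + |x 1| * |v 0| := by rw [abs_mul, abs_mul]
      _ ≤ m * ‖v‖ + m * ‖v‖ := add_le_add
          (mul_le_mul (le_max_left _ _) a1 (abs_nonneg _) hm0)
          (mul_le_mul (le_max_right _ _) a0 (abs_nonneg _) hm0)
      _ = _ := by ring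
  have hmδ : 0 ≤ m ^ δ := Real.rpow_nonneg hm0 _
  have h2 : m * m ^ δ ≤ ‖x‖ ^ (1 + δ) := by
    rcases hm0.eq_or_lt with h0 | h0
    · rw [← h0, zero_mul]
      positivity
    · have : m * m ^ δ = m ^ (1 + δ) := by
        rw [Real.rpow_add h0, Real.rpow_one]
      rw [this]
      exact Real.rpow_le_rpow hm0 hmx (by linarith)
  calc |circulation v x| * m ^ δ ≤ 2 * (m * ‖v‖) * m ^ δ := mul_le_mul_of_nonneg_right h1 hmδ
    _ = 2 * (‖v‖ * (m * m ^ δ)) := by ring
    _ ≤ 2 * (‖v‖ * ‖x‖ ^ (1 + δ)) := by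
        have := mul_le_mul_of_nonneg_left h2 (norm_nonneg v)
        linarith
    _ ≤ 2 * C := by linarith

/-- For all `δ` and `q` with `1 < q < 5/4` and `q ≤ 1 + δ/4` there are smooth compactly supported
divergence-free axisymmetric fields `p 0, p 1, …` on `ℝ³`, none of them zero, which are mutually
orthogonal in `L²` and for the Dirichlet form, and smooth axisymmetric fields `g n 0, g n 1, g n 2`,
`n ≥ 0`, which vanish near the origin and outside the ball `|x| ≤ 2^(-q^n)`, with the following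
properties.
* All square integrable divergence-free axisymmetric fields which satisfy the constraints form an
  admissible space (the largest one).
* For every admissible space `W` and every `ν`, each solution of the Navier-Stokes equations
  projected on `W` is divergence-free and satisfies the energy equality.
* There is `A₀ > 0` such that for every viscosity `ν ≥ 0` and every amplitude `a > 0` with
  `A₀ ν ≤ a` there are `T ≤ A₀ / a` and a field `u` on `[0,T)` with `u(0) = a p_0`, axisymmetric and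
  supported in `|x| ≤ 1`, with `|u(t,x)| ≤ C |x|^(-1-δ)` and with the circulation bounded by
  `|Γ(t,x)| ≤ C max(|x₀|, |x₁|)^(-δ)`, whose `L³` norm and supremum tend to infinity as `t → T`,
  and which solves the equations projected on `W` for all admissible spaces `W` at once. For each
  of these spaces every solution with the datum `a p_0` is a restriction of `u`; in particular
  none exists beyond `T`. -/
theorem result (δ q : ℝ) (hq : 1 < q) (hq' : q < 5 / 4) (hδ : q ≤ 1 + δ / 4) :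
    ∃ (p : ℕ → E3 → E3) (g : ℕ → Fin 3 → E3 → E3),
      (∀ n, ContDiff ℝ ∞ (p n) ∧ HasCompactSupport (p n) ∧ (∀ x, divergence (p n) x = 0) ∧
        0 < innerL2 (p n) (p n) ∧ IsAxisymmetric (p n)) ∧
      (∀ m n, m ≠ n → innerL2 (p m) (p n) = 0 ∧ dirichlet (p m) (p n) = 0) ∧
      (∀ n i, ContDiff ℝ ∞ (g n i) ∧ (∀ᶠ x in 𝓝 0, g n i x = 0) ∧
        (∀ x, g n i x ≠ 0 → ‖x‖ ≤ (2 : ℝ) ^ (-(q ^ n))) ∧ IsAxisymmetric (g n i)) ∧
      (∃ W : Submodule ℝ (E3 → E3), IsSpace p g W ∧
        ∀ w, w ∈ W ↔ IsSolenoidal w ∧ IsAxisymmetric w ∧ Constrained g w) ∧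
      (∀ W : Submodule ℝ (E3 → E3), IsSpace p g W → ∀ (ν T : ℝ) (w : ℝ → E3 → E3),
        IsProjected W ν T w → ∀ t ∈ Ico 0 T, (∀ x, divergence (w t) x = 0) ∧
          innerL2 (w t) (w t) + 2 * ν * ∫ s in (0 : ℝ)..t, dirichlet (w s) (w s)
            = innerL2 (w 0) (w 0)) ∧
      ∃ A₀ : ℝ, 0 < A₀ ∧ ∀ ν ≥ 0, ∀ a > 0, A₀ * ν ≤ a →
        ∃ T, 0 < T ∧ T ≤ A₀ / a ∧ ∃ u : ℝ → E3 → E3,
          (∀ x, u 0 x = a • p 0 x) ∧
          (∀ t ∈ Ico 0 T, IsAxisymmetric (u t)) ∧
          (∀ t ∈ Ico 0 T, ∀ x, 1 < ‖x‖ → u t x = 0) ∧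
          (∃ C, ∀ t ∈ Ico 0 T, ∀ x, ‖u t x‖ * ‖x‖ ^ (1 + δ) ≤ C ∧
            |circulation (u t x) x| * (max |x 0| |x 1|) ^ δ ≤ C) ∧
          Tendsto (fun t => ∫ x, ‖u t x‖ ^ 3) (𝓝[<] T) atTop ∧
          (∀ M, ∀ᶠ t in 𝓝[<] T, ∃ x, M < ‖u t x‖) ∧
          ∀ W : Submodule ℝ (E3 → E3), IsSpace p g W →
            IsProjected W ν T u ∧
            ∀ (T' : ℝ) (w : ℝ → E3 → E3), IsProjected W ν T' w → (∀ x, w 0 x = a • p 0 x) →
              T' ≤ T ∧ ∀ t ∈ Ico 0 T', w t = u t := by
  obtain ⟨p, g, h1, h2, h3, ⟨Wm, hWm, hWi⟩, A₀, hA, H⟩ :=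
    Run7.h407.G.X.mainAx δ q hq hq' hδ
  refine ⟨p, g, h1, h2, h3, ⟨Wm, ⟨fun w hw => ?_, hWm.mem⟩, fun w => ?_⟩, ?_, A₀, hA, ?_⟩
  · have h := (hWi w).1 hw
    exact ⟨⟨h.1.1, h.1.2.1⟩, h.2, h.1.2.2⟩
  · rw [hWi]
    exact ⟨fun h => ⟨⟨h.1.1, h.1.2.1⟩, h.2, h.1.2.2⟩,
      fun h => ⟨⟨h.1.memL2, h.1.div_free, h.2.2⟩, h.2.1⟩⟩
  · intro W hW ν T w hw t ht
    exact ⟨Run7.h407.G.IsProj.dvgG hW.isSpG (proj_iff.1 hw) ht,
      Run7.h407.G.IsProj.energyG hW.isSpG (proj_iff.1 hw) ht⟩
  · intro ν hν a ha haν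
    obtain ⟨T, hT, hTA, u, k1, k0, k2, ⟨C, k3⟩, k4, k5, k6⟩ := H ν hν a ha haν
    have hC : 0 ≤ C := le_trans (by positivity) (k3 0 ⟨le_rfl, hT⟩ 0)
    refine ⟨T, hT, hTA, u, k1, k0, k2, ⟨2 * C, fun t ht x => ⟨?_, ?_⟩⟩, k4, k5, fun W hW => ?_⟩
    · linarith [k3 t ht x]
    · exact circ_le (by linarith) (k3 t ht x)
    · obtain ⟨k7, k8⟩ := k6 W hW.isSpG
      exact ⟨proj_iff.2 k7, fun T' w hw h0 => k8 T' w (proj_iff.1 hw) h0⟩

end Pool.Agent.Results.MP_09540e_an.AxisymmetricLogLog
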