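import Mathlib
import Pool.Agent.Run7.h407.DE.FinE
import Pool.Agent.Run7.h407.LH.Tor

/-!
# Blow-up for the Euler equations on the torus from every datum, sparse scalar constraints

The three-dimensional Euler equations on the torus are projected orthogonally on a space `W`
of square integrable divergence-free fields: the velocity is in `W` and the equations are tested
with all fields of `W`. The space `W` may be very large: all square integrable divergence-free
fields which are orthogonal to test fields `g n i`, `n ≥ 0`, `i < 2`, where `g n i` is supported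
in the ball `|x - z| ≤ 2^(-q^(n-1))` for `n ≥ 3`, and `q > 1` is as large as desired. In other
words there are only `O(log log (1/s))` scalar constraints which are not supported in the ball
`|x - z| < s`.

The theorem: for EVERY smooth divergence-free `U` supported inside the period cell which is not a
steady flow, and for EVERY point `z` of the cell off the support of `U`, there are such
constraints for which the solution with the datum `a U` blows up, for every `a > 0`; and for EVERY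
such `U`, steady or not, there is an arbitrarily small perturbation of `U` in the Hölder spaces
`C^β`, `β < 1`, supported in an arbitrarily small ball about `z`, from which the solution blows up
arbitrarily early.

Up to the blow-up time the solution is unique even among the admissible weak solutions: weak
solutions whose energy never exceeds the initial energy.
-/

namespace Pool.Agent.Run7.h407.Kept.EulerEveryDatum1

open Set Filter Topology MeasureTheory
open scoped ContDiff

/-- Points and vectors of `ℝ³` (with the maximum norm). -/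
abbrev E3 : Type := Fin 3 → ℝ

/-- The cube `[-π, π)³`. -/
def cube : Set E3 := {x | ∀ i, -Real.pi ≤ x i ∧ x i < Real.pi}

/-- Functions on the torus `ℝ³ / (2πℤ)³`. -/
def Periodic {E : Type} (u : E3 → E) : Prop :=
  ∀ (x : E3) (k : Fin 3 → ℤ), u (fun i => x i + 2 * Real.pi * k i) = u x

/-- The derivative of a scalar function in the direction of the `j`-th axis. -/
noncomputable def pderiv (j : Fin 3) (f : E3 → ℝ) (x : E3) : ℝ := fderiv ℝ f x (Pi.single j 1)

/-- The divergence of a vector field. -/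
noncomputable def divergence (u : E3 → E3) (x : E3) : ℝ := ∑ i, pderiv i (fun y => u y i) x

/-- The vorticity. -/
noncomputable def vorticity (u : E3 → E3) (x : E3) : E3 :=
  ![pderiv 1 (fun y => u y 2) x - pderiv 2 (fun y => u y 1) x,
    pderiv 2 (fun y => u y 0) x - pderiv 0 (fun y => u y 2) x,
    pderiv 0 (fun y => u y 1) x - pderiv 1 (fun y => u y 0) x]

/-- The acceleration `(u·∇)u`. -/
noncomputable def acceleration (u : E3 → E3) (x : E3) : E3 :=
  fun i => ∑ j, u x j * pderiv j (fun y => u y i) x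

/-- `U` is a steady flow: the curl of `(U·∇)U` vanishes (so that `(U·∇)U` is a gradient). -/
def IsSteady (U : E3 → E3) : Prop := ∀ (i j : Fin 3) (x : E3),
  pderiv i (fun y => acceleration U y j) x = pderiv j (fun y => acceleration U y i) x

/-- The `L²` inner product on the torus. -/
noncomputable def innerL2 (u v : E3 → E3) : ℝ := ∫ x in cube, ∑ i, u x i * v x i

/-- The `i`-th component of `∂ₜu + (u·∇)u` at time `t` and position `x`. -/
noncomputable def residual (u : ℝ → E3 → E3) (t : ℝ) (x : E3) (i : Fin 3) : ℝ :=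
  deriv (fun s => u s x i) t + ∑ j, u t x j * pderiv j (fun y => u t y i) x

/-- Square integrable fields on the torus whose divergence vanishes in the sense of
distributions. -/
structure IsSolenoidal (w : E3 → E3) : Prop where
  periodic : Periodic w
  memL2 : ∀ i, MemLp (fun x => w x i) 2 (volume.restrict cube)
  div_free : ∀ φ : E3 → ℝ, ContDiff ℝ ∞ φ → Periodic φ →
    ∫ x in cube, ∑ i, w x i * pderiv i φ x = 0

/-- The constraints: `w` is orthogonal to all the fields `g n i`. -/
def Constrained (g : ℕ → Fin 2 → E3 → E3) (w : E3 → E3) : Prop :=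
  ∀ (n : ℕ) (i : Fin 2), innerL2 w (g n i) = 0

/-- The linear spaces `W` of square integrable divergence-free fields satisfying the constraints
which contain all smooth fields of the form `∑ c_n p_n`. -/
structure IsSpace (p : ℕ → E3 → E3) (g : ℕ → Fin 2 → E3 → E3) (W : Submodule ℝ (E3 → E3)) :
    Prop where
  upper : ∀ w ∈ W, IsSolenoidal w ∧ Constrained g w
  lower : ∀ v : E3 → E3, ContDiff ℝ ∞ v → Periodic v →
    (∃ c : ℕ → ℝ, ∀ x, HasSum (fun n => c n • p n x) (v x)) → v ∈ W

/-- `u` is a classical solution on `[0,T)` of the Euler equations projected on the space `W`: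
it is continuously differentiable on `[0,T) × ℝ³` up to `t = 0`; `u(t)` is in `W`; and for
`0 < t < T` the residual `∂ₜu + (u·∇)u` is orthogonal to `W` (the pressure drops out, since the
fields in `W` are divergence-free). -/
structure IsProjected (W : Submodule ℝ (E3 → E3)) (T : ℝ) (u : ℝ → E3 → E3) : Prop where
  smooth : ContDiffOn ℝ 1 (fun z : ℝ × E3 => u z.1 z.2) (Ico 0 T ×ˢ univ)
  mem : ∀ t ∈ Ico 0 T, u t ∈ W
  eqn : ∀ t ∈ Ioo 0 T, ∀ w ∈ W, ∫ x in cube, ∑ i, residual u t x i * w x i = 0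

/-- `v` is an admissible weak solution on `[0,T)` of the Euler equations projected on the space
`W`: it is jointly measurable, `v(t)` is in `W`, its energy is at most the initial energy, and for
`0 < t < T` and all test fields `ψ`, smooth on `[0,t] × ℝ³`, with `ψ(s)` in `W`,
`(v(t), ψ(t)) - (v(0), ψ(0)) = ∫₀ᵗ ∫ (v · ∂ₛψ + v ⊗ v : ∇ψ) dx ds`. -/
structure IsAdmissible (W : Submodule ℝ (E3 → E3)) (T : ℝ) (v : ℝ → E3 → E3) : Prop where
  measurable : AEStronglyMeasurable (fun y : ℝ × E3 => v y.1 y.2)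
    (volume.restrict (Ioo 0 T ×ˢ cube))
  mem : ∀ t ∈ Ico 0 T, v t ∈ W
  energy : ∀ t ∈ Ico 0 T, innerL2 (v t) (v t) ≤ innerL2 (v 0) (v 0)
  weak : ∀ t ∈ Ioo 0 T, ∀ ψ : ℝ → E3 → E3,
    ContDiffOn ℝ ∞ (fun y : ℝ × E3 => ψ y.1 y.2) (Icc 0 t ×ˢ univ) → (∀ s ∈ Icc 0 t, ψ s ∈ W) →
    innerL2 (v t) (ψ t) - innerL2 (v 0) (ψ 0) = ∫ s in (0 : ℝ)..t, ∫ x in cube,
      ∑ i, (v s x i * deriv (fun r => ψ r x i) s
        + ∑ j, v s x i * v s x j * pderiv j (fun y => ψ s y i) x)

/-- The modes `p n` and the constraint fields `g n i`: `p 0 = U`; the modes are smooth periodic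
divergence-free fields, none of them zero, mutually orthogonal in `L²`; the constraint fields are
smooth and periodic, they vanish near `z` and, for `n ≥ 3`, in the cube outside the ball
`|x - z| ≤ 2^(-q^(n-1))`; and all square integrable divergence-free fields which satisfy the
constraints form an admissible space (the largest one). -/
structure IsFamily (q : ℝ) (z : E3) (U : E3 → E3) (p : ℕ → E3 → E3) (g : ℕ → Fin 2 → E3 → E3) :
    Prop where
  first : p 0 = U
  mode : ∀ n, ContDiff ℝ ∞ (p n) ∧ Periodic (p n) ∧ (∀ x, divergence (p n) x = 0) ∧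
    0 < innerL2 (p n) (p n)
  orthogonal : ∀ m n, m ≠ n → innerL2 (p m) (p n) = 0
  field : ∀ n i, ContDiff ℝ ∞ (g n i) ∧ Periodic (g n i) ∧ ∀ᶠ x in 𝓝 z, g n i x = 0
  ball : ∀ n i, ∀ x ∈ cube, g (n + 3) i x ≠ 0 → ‖x - z‖ ≤ (2 : ℝ) ^ (-(q ^ (n + 2)))
  largest : ∃ W : Submodule ℝ (E3 → E3), IsSpace p g W ∧
    ∀ w, w ∈ W ↔ IsSolenoidal w ∧ Constrained g w

/-- Blow-up from the datum `v` before the time `T₀`: there are `T ≤ T₀` and a smooth field `u` on
`[0,T)` with `u(0) = v`, with `|u| ≤ C` and, in the cube, `|∇u(t,x)| ≤ C |x - z|^(-δ)`, whose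
vorticity is unbounded as `t → T`, and which solves the equations projected on `W` for all
admissible spaces `W` at once. For each of these spaces every solution with the datum `v` is a
restriction of `u`; in particular none exists beyond `T`; and every admissible weak solution with
the datum `v` (on some interval `[0,T')`) is equal to `u(t)` almost everywhere, for all times
`t < T', T`. -/
def BlowsUp (δ : ℝ) (z : E3) (p : ℕ → E3 → E3) (g : ℕ → Fin 2 → E3 → E3) (v : E3 → E3)
    (T₀ : ℝ) : Prop :=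
  ∃ T, 0 < T ∧ T ≤ T₀ ∧ ∃ u : ℝ → E3 → E3,
    ContDiffOn ℝ ∞ (fun y : ℝ × E3 => u y.1 y.2) (Ico 0 T ×ˢ univ) ∧ u 0 = v ∧
    (∃ C, ∀ t ∈ Ico 0 T, ∀ x, ‖u t x‖ ≤ C) ∧
    (∃ C, ∀ t ∈ Ico 0 T, ∀ x ∈ cube, ∀ i j,
      |pderiv j (fun y => u t y i) x| * ‖x - z‖ ^ δ ≤ C) ∧
    (∀ M, ∀ᶠ t in 𝓝[<] T, ∃ x, M < ‖vorticity (u t) x‖) ∧
    ∀ W : Submodule ℝ (E3 → E3), IsSpace p g W → IsProjected W T u ∧
      (∀ (T' : ℝ) (w : ℝ → E3 → E3), IsProjected W T' w → w 0 = v →
        T' ≤ T ∧ ∀ t ∈ Ico 0 T', w t = u t) ∧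
      ∀ (T' : ℝ) (w : ℝ → E3 → E3), IsAdmissible W T' w →
        (∀ᵐ x ∂(volume.restrict cube), w 0 x = v x) →
        ∀ t ∈ Ico 0 T', t < T → ∀ᵐ x ∂(volume.restrict cube), w t x = u t x

open Pool.Agent.Run7.h407 Pool.Agent.Run7.h407.G in
theorem space_iff {p : ℕ → E3 → E3} {g : ℕ → Fin 2 → E3 → E3} {W : Submodule ℝ (E3 → E3)} :
    IsSpace p g W ↔ IsSpT p g W :=
  ⟨fun h => ⟨fun w hw => (h.upper w hw).1.periodic, fun w hw => (h.upper w hw).1.memL2,
      fun w hw => (h.upper w hw).1.div_free, fun w hw => (h.upper w hw).2, h.lower⟩,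
    fun h => ⟨fun w hw => ⟨⟨h.per w hw, h.l2 w hw, h.wdf w hw⟩, h.cs w hw⟩, h.mem⟩⟩

open Pool.Agent.Run7.h407 Pool.Agent.Run7.h407.G in
theorem proj_iff {W : Submodule ℝ (E3 → E3)} {T : ℝ} {u : ℝ → E3 → E3} :
    IsProjected W T u ↔ IsProjT W T u :=
  ⟨fun h => ⟨h.smooth, h.mem, h.eqn⟩, fun h => ⟨h.c1, h.mem, h.eqn⟩⟩

open Pool.Agent.Run7.h407 Pool.Agent.Run7.h407.G in
theorem admissible_iff {W : Submodule ℝ (E3 → E3)} {T : ℝ} {v : ℝ → E3 → E3} :
    IsAdmissible W T v ↔ Run7.h407.LH.IsWT W T v :=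
  ⟨fun h => ⟨h.measurable, h.mem, h.energy, h.weak⟩, fun h => ⟨h.meas, h.mem, h.en, h.weak⟩⟩

open Pool.Agent.Run7.h407.G.X in
theorem family_of {q : ℝ} {z : E3} {U : E3 → E3} {p : ℕ → E3 → E3} {g : ℕ → Fin 2 → E3 → E3}
    (h : FamT q z U p g) : IsFamily q z U p g := by
  obtain ⟨Wm, hWm, hWi⟩ := h.big
  refine ⟨h.zero, h.mode, h.orth, h.field, h.ball, Wm, space_iff.2 hWm, fun w => ?_⟩
  rw [hWi]
  exact ⟨fun h => ⟨⟨h.1, h.2.1, h.2.2.1⟩, h.2.2.2⟩,
    fun h => ⟨h.1.periodic, h.1.memL2, h.1.div_free, h.2⟩⟩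

open Pool.Agent.Run7.h407.G.X in
theorem blowsUp_of {δ T₀ : ℝ} {z : E3} {p : ℕ → E3 → E3} {g : ℕ → Fin 2 → E3 → E3}
    {v : E3 → E3} (h : BloT δ z p g v T₀) : BlowsUp δ z p g v T₀ := by
  obtain ⟨T, hT, hTA, u, k0, k1, k2, k3, k4, k6⟩ := h
  refine ⟨T, hT, hTA, u, k0, k1, k2, k3, fun M => ?_, fun W hW => ?_⟩
  · filter_upwards [k4 M] with t ht
    obtain ⟨x, hx⟩ := ht
    refine ⟨x, hx.trans_le ?_⟩
    refine le_trans (le_abs_self _) ?_
    exact norm_le_pi_norm (vorticity (u t) x) 2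
  · have hs := space_iff.1 hW
    obtain ⟨k7, k8⟩ := k6 W hs
    refine ⟨proj_iff.2 k7, fun T' w hw h0 => k8 T' w (proj_iff.1 hw) h0, fun T' w hw h0 => ?_⟩
    refine Run7.h407.LH.wt_unique k0 hs.per hs.l2 hs.wdf k7.mem k7.eqn (admissible_iff.1 hw) ?_
    rw [k1]
    exact h0

open Pool.Agent.Run7.h407 Pool.Agent.Run7.h407.G.X in
theorem om_of_not_steady {U : E3 → E3} (h : ¬ IsSteady U) :
    ∃ i x, om i (adv U U) x ≠ 0 := by
  by_contra hcon
  push Not at hcon
  apply h
  intro i j x
  have h1 := wg_le (adv U U) i j x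
  simp only [hcon, abs_zero, Finset.sum_const_zero] at h1
  have h2 := abs_nonpos_iff.1 h1
  unfold wg at h2
  exact sub_eq_zero.1 h2

/-- Let `δ > 0` and `q > 1`. Let `U` be a smooth divergence-free field on the torus which, in the
cube `[-π, π)³`, is supported in `|x| ≤ r` with `r < π`, and let `z` be a point with `|z| < π`
off the support of `U`.

(A) Suppose that `U` is not a steady flow. Then there are modes and constraint fields with
`p 0 = U`, and `A₀ > 0`, such that for every amplitude `a > 0` the solution with the datum `a U`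
blows up before the time `A₀ / a`.

(B) For all `0 < β < 1` and `ε > 0` there are a smooth divergence-free field `F` on the torus,
supported in `|x - z| ≤ ε` in the cube, with `|F| ≤ ε` and `|F(x) - F(y)| ≤ ε |x - y|^β`, and modes
and constraint fields with `p 0 = U + F`, such that for every amplitude `a > 0` the solution with
the datum `a (U + F)` blows up before the time `ε / a`.

(C) For every space `W` between the modes and the constraints, each solution of the Euler
equations projected on `W` is divergence-free, its energy is constant, and it is an admissible weak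
solution. -/
theorem result (δ q : ℝ) (hδ : 0 < δ) (hq : 1 < q)
    (U : E3 → E3) (hU : ContDiff ℝ ∞ U) (hUp : Periodic U) (hUd : ∀ x, divergence U x = 0)
    (r : ℝ) (hr : r < Real.pi) (hUr : ∀ x ∈ cube, U x ≠ 0 → ‖x‖ ≤ r)
    (z : E3) (hz : ‖z‖ < Real.pi) (hzU : z ∉ tsupport U) :
    (¬ IsSteady U → ∃ (p : ℕ → E3 → E3) (g : ℕ → Fin 2 → E3 → E3), IsFamily q z U p g ∧
      ∃ A₀ > 0, ∀ a > 0, BlowsUp δ z p g (fun x => a • U x) (A₀ / a)) ∧
    (∀ β ε : ℝ, 0 < β → β < 1 → 0 < ε → ∃ F : E3 → E3, ContDiff ℝ ∞ F ∧ Periodic F ∧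
      (∀ x, divergence F x = 0) ∧ (∀ x ∈ cube, F x ≠ 0 → ‖x - z‖ ≤ ε) ∧ (∀ x, ‖F x‖ ≤ ε) ∧
      (∀ x y, ‖F x - F y‖ ≤ ε * ‖x - y‖ ^ β) ∧
      ∃ (p : ℕ → E3 → E3) (g : ℕ → Fin 2 → E3 → E3), IsFamily q z (fun x => U x + F x) p g ∧
        ∀ a > 0, BlowsUp δ z p g (fun x => a • (U x + F x)) (ε / a)) ∧
    (∀ (p : ℕ → E3 → E3) (g : ℕ → Fin 2 → E3 → E3) (W : Submodule ℝ (E3 → E3)),
      IsSpace p g W → ∀ (T : ℝ) (w : ℝ → E3 → E3), IsProjected W T w →
        IsAdmissible W T w ∧ ∀ t ∈ Ico 0 T,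
          (∀ x, divergence (w t) x = 0) ∧ innerL2 (w t) (w t) = innerL2 (w 0) (w 0)) := by
  have hz' : ∀ᶠ x in 𝓝 z, U x = 0 := notMem_tsupport_iff_eventuallyEq.1 hzU
  refine ⟨fun hUs => ?_, fun β ε hβ0 hβ1 hε => ?_, fun p g W hW T w hw => ?_⟩
  · obtain ⟨p, g, h1, A₀, hA, H⟩ := Run7.h407.G.X.mainTA hδ hq hU hUp hUd hr hUr hz hz'
      (om_of_not_steady hUs)
    exact ⟨p, g, family_of h1, A₀, hA, fun a ha => blowsUp_of (H a ha)⟩
  · obtain ⟨F, h1, h2, h3, h4, h5, h6, p, g, h7, h8⟩ :=
      Run7.h407.G.X.mainTB hδ hq hU hUp hUd hr hUr hz hz' hβ0 hβ1 hε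
    exact ⟨F, h1, h2, h3, h4, h5, h6, p, g, family_of h7, fun a ha => blowsUp_of (h8 a ha)⟩
  · have hs := space_iff.1 hW
    refine ⟨admissible_iff.2 (Run7.h407.LH.wt_of_proj (proj_iff.1 hw) hs.per hs.wdf), ?_⟩
    exact fun t ht => ⟨(proj_iff.1 hw).dvg hs ht, (proj_iff.1 hw).energy hs ht⟩

end Pool.Agent.Run7.h407.Kept.EulerEveryDatum1
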