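import Mathlib
import Pool.Agent.Run7.h407.LE.Brg

/-!
# Blow-up for the Euler equations on the torus from every datum, universal sparse constraints

The three-dimensional Euler equations on the torus are projected orthogonally on a space `W`
of square integrable divergence-free fields: the velocity is in `W` and the equations are tested
with all fields of `W`. The space `W` may be very large: all square integrable divergence-free
fields which are orthogonal to test fields `g n i`, `n ≥ 0`, `i < 2`.

The test fields `g n i` with `n ≥ 3` are universal: in the period cell they are the fields
`G (n + k) i (x - z)` with a sequence `G m i` of fields on `ℝ³` which does not depend on the datum,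
is supported in the ball `|x| ≤ 2^(-q^m)`, where `q > 1` is as large as desired, and is used from
a large index on. So only six scalar constraints depend on the datum; all others are supported in
an arbitrarily small ball about `z`, and only `O(log log (1/s))` of them are not supported in the
ball `|x - z| < s`.

The theorem: for EVERY smooth divergence-free `U` supported inside the period cell which is not a
steady flow, and for EVERY point `z` of the cell off the support of `U`, there are such
constraints for which the solution with the datum `a U` blows up, for every `a > 0`; and for EVERY
such `U`, steady or not, there is an arbitrarily small perturbation of `U` in the Hölder space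
`C^β`, supported in an arbitrarily small ball about `z`, from which the solution blows up
arbitrarily early.

Up to the blow-up time the solution is unique even among the admissible weak solutions: weak
solutions whose energy never exceeds the initial energy.
-/

namespace Pool.Agent.Run7.h407.Kept.EulerEveryDatum2

open Set Filter Topology MeasureTheory Run7.h407.LE
open scoped ContDiff

/-- Let `δ > 0`, `q > 1` and `0 < β < 1`. There are universal modes `P m` and constraint fields
`G m i` on `ℝ³`, which depend only on `δ`, `q` and `β`, with the following properties. Let `U` be
a smooth divergence-free field on the torus which, in the cube `[-π, π)³`, is supported in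
`|x| ≤ r` with `r < π`, and let `z` be a point with `|z| < π` off the support of `U`.

(A) Suppose that `U` is not a steady flow. Then for all large `k` there are modes and constraint
fields with `p 0 = U`, universal for `n ≥ 3`, and `A₀ > 0`, such that for every amplitude `a > 0`
the solution with the datum `a U` blows up before the time `A₀ / a`.

(B) Let `ε > 0`. Then for all large `k` there are a smooth divergence-free field `F` on the torus,
supported in `|x - z| ≤ ε` in the cube, with `|F| ≤ ε` and `|F(x) - F(y)| ≤ ε |x - y|^β`, and modes
and constraint fields with `p 0 = U + F`, universal for `n ≥ 3`, such that for every amplitude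
`a > 0` the solution with the datum `a (U + F)` blows up before the time `ε / a`.

(C) For every space `W` between the modes and the constraints, each solution of the Euler
equations projected on `W` is divergence-free, its energy is constant, and it is an admissible weak
solution. -/
theorem result (δ q β : ℝ) (hδ : 0 < δ) (hq : 1 < q) (hβ0 : 0 < β) (hβ1 : β < 1) :
    ∃ (P : ℕ → E3 → E3) (G : ℕ → Fin 2 → E3 → E3), IsUniversal q P G ∧
    (∀ (U : E3 → E3) (z : E3), IsFlow U → (∃ r < Real.pi, CubeInBall 0 r U) →
      mag z < Real.pi → VanishesNear z U →
      (¬ IsSteady U → ∃ k₀ : ℕ, ∀ k ≥ k₀, ∃ (p : ℕ → E3 → E3) (g : ℕ → Fin 2 → E3 → E3),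
        IsFamily P G k z U p g ∧ ∃ A₀ > 0, ∀ a > 0, BlowsUp δ z p g (scale a U) (A₀ / a)) ∧
      (∀ ε > 0, ∃ k₀ : ℕ, ∀ k ≥ k₀, ∃ F : E3 → E3, IsFlow F ∧ CubeInBall z ε F ∧
        (∀ x, mag (F x) ≤ ε) ∧ (∀ x y, dst (F x) (F y) ≤ ε * dst x y ^ β) ∧
        ∃ (p : ℕ → E3 → E3) (g : ℕ → Fin 2 → E3 → E3), IsFamily P G k z (plus U F) p g ∧
          ∀ a > 0, BlowsUp δ z p g (scale a (plus U F)) (ε / a))) ∧
    (∀ (p : ℕ → E3 → E3) (g : ℕ → Fin 2 → E3 → E3) (W : Set (E3 → E3)),
      IsSpace p g W → ∀ (T : ℝ) (w : ℝ → E3 → E3), IsProjected W T w →
        IsAdmissible W T w ∧ ∀ t ∈ Ico 0 T,
          (∀ x, divergence (w t) x = 0) ∧ innerL2 (w t) (w t) = innerL2 (w 0) (w 0)) :=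
  main δ q β hδ hq hβ0 hβ1

end Pool.Agent.Run7.h407.Kept.EulerEveryDatum2
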