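import Mathlib
import Pool.Agent.Run7.h407.Final

/-!
# Blow-up for the Navier-Stokes equations restricted to the dilates of one field

The three-dimensional Navier-Stokes equations are tested only with the dilates
`ψ_n(x) = r^(3n) ψ(r^(2n) x)`, `n ≥ 0`, of one smooth compactly supported divergence-free
field `ψ`, and the velocity is sought in the closed linear span of these dilates: this is the
Galerkin projection of the equations, with the full nonlinearity and the full Laplacian, on an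
infinite-dimensional closed space of divergence-free fields.
-/

namespace Pool.Agent.Run7.h407.Kept.GalerkinBlowup

open Set Filter Topology MeasureTheory
open scoped ContDiff

/-- Points and vectors of `ℝ³` (with the maximum norm). -/
abbrev E3 : Type := Fin 3 → ℝ

/-- The derivative of a scalar function in the direction of the `j`-th axis. -/
noncomputable def pderiv (j : Fin 3) (f : E3 → ℝ) (x : E3) : ℝ := fderiv ℝ f x (Pi.single j 1)

/-- The divergence of a vector field. -/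
noncomputable def divergence (u : E3 → E3) (x : E3) : ℝ := ∑ i, pderiv i (fun y => u y i) x

/-- The `L²` inner product `∫ u · v dx`. -/
noncomputable def innerL2 (u v : E3 → E3) : ℝ := ∫ x, ∑ i, u x i * v x i

/-- The Dirichlet form `∫ ∇u : ∇v dx`. -/
noncomputable def dirichlet (u v : E3 → E3) : ℝ :=
  ∫ x, ∑ i, ∑ j, pderiv j (fun y => u y i) x * pderiv j (fun y => v y i) x

/-- The `n`-th dilate `ψ_n(x) = r^(3n) ψ(r^(2n) x)`; it has the same `L²` norm as `ψ`. -/
noncomputable def dilate (r : ℝ) (ψ : E3 → E3) (n : ℕ) (x : E3) : E3 :=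
  (r ^ n) ^ 3 • ψ ((r ^ n) ^ 2 • x)

/-- The `i`-th component of `∂ₜu + (u·∇)u - ν Δu` at time `t` and position `x`. -/
noncomputable def residual (ν : ℝ) (u : ℝ → E3 → E3) (t : ℝ) (x : E3) (i : Fin 3) : ℝ :=
  deriv (fun s => u s x i) t + ∑ j, u t x j * pderiv j (fun y => u t y i) x
    - ν * ∑ j, pderiv j (pderiv j (fun y => u t y i)) x

/-- `u` is a smooth solution on `[0,T)` of the Navier-Stokes equations projected on the closed
span of the dilates of `ψ`: it is smooth on `[0,T) × ℝ³` up to `t = 0`, each `u(t)` is the sum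
of a series `∑ c_n ψ_n` with square summable coefficients, and the residual
`∂ₜu + (u·∇)u - ν Δu` is orthogonal to every `ψ_n` at every time `0 < t < T`
(the pressure drops out, since the `ψ_n` are divergence-free). -/
structure IsGalerkin (r : ℝ) (ψ : E3 → E3) (ν T : ℝ) (u : ℝ → E3 → E3) : Prop where
  smooth : ContDiffOn ℝ ∞ (fun z : ℝ × E3 => u z.1 z.2) (Ico 0 T ×ˢ univ)
  mem : ∀ t ∈ Ico 0 T, ∃ c : ℕ → ℝ, Summable (fun n => c n ^ 2) ∧
    ∀ x, HasSum (fun n => c n • dilate r ψ n x) (u t x)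
  eqn : ∀ t ∈ Ioo 0 T, ∀ n, ∫ x, ∑ i, residual ν u t x i * dilate r ψ n x i = 0

/-- For every `δ > 0` there are a ratio `r > 1` and a smooth compactly supported
divergence-free field `ψ ≠ 0` on `ℝ³`, whose dilates `ψ_n` are mutually orthogonal in `L²` and
for the Dirichlet form, with the following property. There are constants `R, A₀ > 0` such that
for every viscosity `ν ≥ 0` and every amplitude `a > 0` with `A₀ ν ≤ a` the projected
Navier-Stokes equations with the datum `a ψ` have a smooth solution `u` on `[0,T)` for some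
`T ≤ A₀ / a`, supported in `|x| ≤ R`, divergence-free and with the energy equality, which
blows up at `T`: its `L³` norm and its supremum tend to infinity as `t → T`, although
`|u(t,x)| ≤ C |x|^(-1-δ)` for all `t < T`. Every smooth solution of the projected equations
with the same datum is a restriction of `u`; in particular none exists beyond `T`. -/
theorem result (δ : ℝ) (hδ : 0 < δ) :
    ∃ (r : ℝ) (ψ : E3 → E3), 1 < r ∧ ContDiff ℝ ∞ ψ ∧ HasCompactSupport ψ ∧
      (∀ x, divergence ψ x = 0) ∧ 0 < innerL2 ψ ψ ∧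
      (∀ m n, m ≠ n → innerL2 (dilate r ψ m) (dilate r ψ n) = 0 ∧
        dirichlet (dilate r ψ m) (dilate r ψ n) = 0) ∧
      ∃ R A₀ : ℝ, 0 < R ∧ 0 < A₀ ∧ ∀ ν ≥ 0, ∀ a > 0, A₀ * ν ≤ a →
        ∃ T, 0 < T ∧ T ≤ A₀ / a ∧ ∃ u : ℝ → E3 → E3, IsGalerkin r ψ ν T u ∧
          (∀ x, u 0 x = a • ψ x) ∧
          (∀ t ∈ Ico 0 T, ∀ x, R < ‖x‖ → u t x = 0) ∧
          (∀ t ∈ Ico 0 T, ∀ x, divergence (u t) x = 0) ∧
          (∀ t ∈ Ico 0 T, innerL2 (u t) (u t)
            + 2 * ν * ∫ s in (0 : ℝ)..t, dirichlet (u s) (u s) = innerL2 (u 0) (u 0)) ∧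
          (∃ C, ∀ t ∈ Ico 0 T, ∀ x, ‖u t x‖ * ‖x‖ ^ (1 + δ) ≤ C) ∧
          Tendsto (fun t => ∫ x, ‖u t x‖ ^ 3) (𝓝[<] T) atTop ∧
          (∀ M, ∀ᶠ t in 𝓝[<] T, ∃ x, M < ‖u t x‖) ∧
          ∀ (T' : ℝ) (w : ℝ → E3 → E3), IsGalerkin r ψ ν T' w → (∀ x, w 0 x = a • ψ x) →
            T' ≤ T ∧ ∀ t ∈ Ico 0 T', w t = u t := by
  obtain ⟨r, ψ, h1, h2, h3, h4, h5, h6, R, A₀, hR, hA, H⟩ := Run7.h407.main δ hδ
  refine ⟨r, ψ, h1, h2, h3, h4, h5, h6, R, A₀, hR, hA, ?_⟩
  intro ν hν a ha haν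
  obtain ⟨T, hT, hTA, u, hu, k1, k2, k3, k4, k5, k6, k7, k8⟩ := H ν hν a ha haν
  exact ⟨T, hT, hTA, u, ⟨hu.smooth, hu.mem, hu.gal⟩, k1, k2, k3, k4, k5, k6, k7,
    fun T' w hw h0 => k8 T' w ⟨hw.smooth, hw.mem, hw.eqn⟩ h0⟩

end Pool.Agent.Run7.h407.Kept.GalerkinBlowup
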