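import Mathlib
import Pool.Agent.Run7.h407.G.ESp

/-!
# Blow-up for the Euler equations on the torus with doubly exponentially sparse constraints

The three-dimensional Euler equations on the torus are projected orthogonally on a space `W`
of square integrable divergence-free fields: the velocity is in `W` and the equations are tested
with all fields of `W`. The space `W` may be very large: all square integrable divergence-free
fields which are orthogonal to test fields `g n i`, `n ≥ 0`, `i < 2`, where `g n i` is supported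
in the ball `|x| ≤ 2^(-q^n)` and `q > 1` is as large as desired. In other words there are only
`O(log log (1/s))` scalar constraints which are not supported in the ball `|x| < s`.
-/

namespace Pool.Agent.Results.MP_b0497c_an.LogLogConstraints

open Set Filter Topology MeasureTheory
open scoped ContDiff

/-- Points and vectors of `ℝ³` (with the maximum norm). -/
abbrev E3 : Type := Fin 3 → ℝ

/-- The cube `[-π, π)³`. -/
def cube : Set E3 := {x | ∀ i, -Real.pi ≤ x i ∧ x i < Real.pi}

/-- Functions on the torus `ℝ³ / (2πℤ)³`. -/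
def Periodic {E : Type} (u : E3 → E) : Prop :=
  ∀ (x : E3) (k : Fin 3 → ℤ), u (fun i => x i + 2 * Real.pi * k i) = u x

/-- The derivative of a scalar function in the direction of the `j`-th axis. -/
noncomputable def pderiv (j : Fin 3) (f : E3 → ℝ) (x : E3) : ℝ := fderiv ℝ f x (Pi.single j 1)

/-- The divergence of a vector field. -/
noncomputable def divergence (u : E3 → E3) (x : E3) : ℝ := ∑ i, pderiv i (fun y => u y i) x

/-- The vorticity. -/
noncomputable def vorticity (u : E3 → E3) (x : E3) : E3 :=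
  ![pderiv 1 (fun y => u y 2) x - pderiv 2 (fun y => u y 1) x,
    pderiv 2 (fun y => u y 0) x - pderiv 0 (fun y => u y 2) x,
    pderiv 0 (fun y => u y 1) x - pderiv 1 (fun y => u y 0) x]

/-- The `L²` inner product on the torus. -/
noncomputable def innerL2 (u v : E3 → E3) : ℝ := ∫ x in cube, ∑ i, u x i * v x i

/-- The `i`-th component of `∂ₜu + (u·∇)u` at time `t` and position `x`. -/
noncomputable def residual (u : ℝ → E3 → E3) (t : ℝ) (x : E3) (i : Fin 3) : ℝ :=
  deriv (fun s => u s x i) t + ∑ j, u t x j * pderiv j (fun y => u t y i) x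

/-- Square integrable fields on the torus whose divergence vanishes in the sense of
distributions. -/
structure IsSolenoidal (w : E3 → E3) : Prop where
  periodic : Periodic w
  memL2 : ∀ i, MemLp (fun x => w x i) 2 (volume.restrict cube)
  div_free : ∀ φ : E3 → ℝ, ContDiff ℝ ∞ φ → Periodic φ →
    ∫ x in cube, ∑ i, w x i * pderiv i φ x = 0

/-- The constraints: `w` is orthogonal to all the fields `g n i`. -/
def Constrained (g : ℕ → Fin 2 → E3 → E3) (w : E3 → E3) : Prop :=
  ∀ (n : ℕ) (i : Fin 2), innerL2 w (g n i) = 0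

/-- The linear spaces `W` of square integrable divergence-free fields satisfying the constraints
which contain all smooth fields of the form `∑ c_n p_n`. -/
structure IsSpace (p : ℕ → E3 → E3) (g : ℕ → Fin 2 → E3 → E3) (W : Submodule ℝ (E3 → E3)) :
    Prop where
  upper : ∀ w ∈ W, IsSolenoidal w ∧ Constrained g w
  lower : ∀ v : E3 → E3, ContDiff ℝ ∞ v → Periodic v →
    (∃ c : ℕ → ℝ, ∀ x, HasSum (fun n => c n • p n x) (v x)) → v ∈ W

/-- `u` is a classical solution on `[0,T)` of the Euler equations projected on the space `W`: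
it is continuously differentiable on `[0,T) × ℝ³` up to `t = 0`; `u(t)` is in `W`; and for
`0 < t < T` the residual `∂ₜu + (u·∇)u` is orthogonal to `W` (the pressure drops out, since the
fields in `W` are divergence-free). -/
structure IsProjected (W : Submodule ℝ (E3 → E3)) (T : ℝ) (u : ℝ → E3 → E3) : Prop where
  smooth : ContDiffOn ℝ 1 (fun z : ℝ × E3 => u z.1 z.2) (Ico 0 T ×ˢ univ)
  mem : ∀ t ∈ Ico 0 T, u t ∈ W
  eqn : ∀ t ∈ Ioo 0 T, ∀ w ∈ W, ∫ x in cube, ∑ i, residual u t x i * w x i = 0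

open Pool.Agent.Run7.h407 Pool.Agent.Run7.h407.G in
theorem space_iff {p : ℕ → E3 → E3} {g : ℕ → Fin 2 → E3 → E3} {W : Submodule ℝ (E3 → E3)} :
    IsSpace p g W ↔ IsSpT p g W :=
  ⟨fun h => ⟨fun w hw => (h.upper w hw).1.periodic, fun w hw => (h.upper w hw).1.memL2,
      fun w hw => (h.upper w hw).1.div_free, fun w hw => (h.upper w hw).2, h.lower⟩,
    fun h => ⟨fun w hw => ⟨⟨h.per w hw, h.l2 w hw, h.wdf w hw⟩, h.cs w hw⟩, h.mem⟩⟩

open Pool.Agent.Run7.h407 Pool.Agent.Run7.h407.G in
theorem proj_iff {W : Submodule ℝ (E3 → E3)} {T : ℝ} {u : ℝ → E3 → E3} :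
    IsProjected W T u ↔ IsProjT W T u :=
  ⟨fun h => ⟨h.smooth, h.mem, h.eqn⟩, fun h => ⟨h.c1, h.mem, h.eqn⟩⟩

/-- For all `δ > 0` and `q > 1` there are smooth divergence-free fields `p 0, p 1, …` on the
torus, none of them zero, which are mutually orthogonal in `L²`, and smooth fields
`g n 0, g n 1`, `n ≥ 0`, which vanish near the origin and outside the ball `|x| ≤ 2^(-q^n)`, with
the following properties.
* All square integrable divergence-free fields which satisfy the constraints form an admissible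
  space (the largest one).
* For every admissible space `W`, each solution of the Euler equations projected on `W` is
  divergence-free and its energy is constant.
* There is `A₀ > 0` such that for every amplitude `a > 0` there are `T ≤ A₀ / a` and a smooth
  field `u` on `[0,T)` with `u(0) = a p_0`, with `|u| ≤ C` and `|∇u(t,x)| ≤ C |x|^(-δ)`, whose
  vorticity is unbounded as `t → T`, and which solves the equations projected on `W` for all
  admissible spaces `W` at once. For each of these spaces every solution with the datum `a p_0`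
  is a restriction of `u`; in particular none exists beyond `T`. -/
theorem result (δ q : ℝ) (hδ : 0 < δ) (hq : 1 < q) :
    ∃ (p : ℕ → E3 → E3) (g : ℕ → Fin 2 → E3 → E3),
      (∀ n, ContDiff ℝ ∞ (p n) ∧ Periodic (p n) ∧ (∀ x, divergence (p n) x = 0) ∧
        0 < innerL2 (p n) (p n)) ∧
      (∀ m n, m ≠ n → innerL2 (p m) (p n) = 0) ∧
      (∀ n i, ContDiff ℝ ∞ (g n i) ∧ Periodic (g n i) ∧ (∀ᶠ x in 𝓝 0, g n i x = 0) ∧
        ∀ x ∈ cube, g n i x ≠ 0 → ‖x‖ ≤ (2 : ℝ) ^ (-(q ^ n))) ∧
      (∃ W : Submodule ℝ (E3 → E3), IsSpace p g W ∧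
        ∀ w, w ∈ W ↔ IsSolenoidal w ∧ Constrained g w) ∧
      (∀ W : Submodule ℝ (E3 → E3), IsSpace p g W → ∀ (T : ℝ) (w : ℝ → E3 → E3),
        IsProjected W T w → ∀ t ∈ Ico 0 T, (∀ x, divergence (w t) x = 0) ∧
          innerL2 (w t) (w t) = innerL2 (w 0) (w 0)) ∧
      ∃ A₀ : ℝ, 0 < A₀ ∧ ∀ a > 0, ∃ T, 0 < T ∧ T ≤ A₀ / a ∧ ∃ u : ℝ → E3 → E3,
        ContDiffOn ℝ ∞ (fun z : ℝ × E3 => u z.1 z.2) (Ico 0 T ×ˢ univ) ∧
        (∀ x, u 0 x = a • p 0 x) ∧
        (∃ C, ∀ t ∈ Ico 0 T, ∀ x, ‖u t x‖ ≤ C) ∧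
        (∃ C, ∀ t ∈ Ico 0 T, ∀ x ∈ cube, ∀ i j,
          |pderiv j (fun y => u t y i) x| * ‖x‖ ^ δ ≤ C) ∧
        (∀ M, ∀ᶠ t in 𝓝[<] T, ∃ x, M < ‖vorticity (u t) x‖) ∧
        ∀ W : Submodule ℝ (E3 → E3), IsSpace p g W →
          IsProjected W T u ∧
          ∀ (T' : ℝ) (w : ℝ → E3 → E3), IsProjected W T' w → (∀ x, w 0 x = a • p 0 x) →
            T' ≤ T ∧ ∀ t ∈ Ico 0 T', w t = u t := by
  obtain ⟨p, g, h1, h2, h3, ⟨Wm, hWm, hWi⟩, A₀, hA, H⟩ := Run7.h407.G.mainE δ q hδ hq
  refine ⟨p, g, h1, h2, h3, ⟨Wm, space_iff.2 hWm, fun w => ?_⟩, ?_, A₀, hA, ?_⟩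
  · rw [hWi]
    exact ⟨fun h => ⟨⟨h.1, h.2.1, h.2.2.1⟩, h.2.2.2⟩,
      fun h => ⟨h.1.periodic, h.1.memL2, h.1.div_free, h.2⟩⟩
  · intro W hW T w hw t ht
    exact ⟨(proj_iff.1 hw).dvg (space_iff.1 hW) ht, (proj_iff.1 hw).energy (space_iff.1 hW) ht⟩
  · intro a ha
    obtain ⟨T, hT, hTA, u, k0, k1, k2, k3, k4, k6⟩ := H a ha
    refine ⟨T, hT, hTA, u, k0, k1, k2, k3, fun M => ?_, fun W hW => ?_⟩
    · filter_upwards [k4 M] with t ht
      obtain ⟨x, hx⟩ := ht
      refine ⟨x, hx.trans_le ?_⟩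
      refine le_trans (le_abs_self _) ?_
      exact norm_le_pi_norm (vorticity (u t) x) 2
    · obtain ⟨k7, k8⟩ := k6 W (space_iff.1 hW)
      exact ⟨proj_iff.2 k7, fun T' w hw h0 => k8 T' w (proj_iff.1 hw) h0⟩

end Pool.Agent.Results.MP_b0497c_an.LogLogConstraints
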