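import Mathlib
import Pool.Agent.Run7.h407.LH.Proj
import Pool.Agent.Run7.h407.DZ.MainZ

/-!
# Blow-up from every datum under doubly exponentially sparse scalar constraints

The three-dimensional Navier-Stokes equations on `ℝ³` are projected orthogonally on a space `W`
of square integrable divergence-free fields: the velocity is in `W` and the equations are tested
with all fields of `W`. The space `W` may be very large: all square integrable divergence-free
fields which are orthogonal to test fields `g n i`, `n ≥ 0`, `i < 3`, where `g n i` is supported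
in the ball `|x - z| ≤ 2^(-q^(n-1))`, `q > 1`, for `n ≥ 3`. In other words there are only
`O(log log (1/s))` scalar constraints which are not supported in the ball `|x - z| < s`.

The theorem: for EVERY smooth compactly supported divergence-free `U` which is not a steady Euler
flow, and for EVERY point `z` off the support of `U`, there are such constraints for which the
solution with the datum `a U` blows up at `z` as soon as `a ≥ A₀ ν`; and for EVERY `U`, EVERY
point `z` and every viscosity there is an arbitrarily small perturbation of `U` in `L^r`, `r < 3`,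
supported in an arbitrarily small ball about `z`, from which the solution blows up at `z`
arbitrarily early.
All Leray-Hopf solutions of the projected equations coincide with the smooth one up to the
blow-up.
-/

namespace Pool.Agent.Run7.h407.Kept.LogLogEveryDatum1

open Set Filter Topology MeasureTheory
open scoped ContDiff

/-- Points and vectors of `ℝ³` (with the maximum norm). -/
abbrev E3 : Type := Fin 3 → ℝ

/-- The derivative of a scalar function in the direction of the `j`-th axis. -/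
noncomputable def pderiv (j : Fin 3) (f : E3 → ℝ) (x : E3) : ℝ := fderiv ℝ f x (Pi.single j 1)

/-- The divergence of a vector field. -/
noncomputable def divergence (u : E3 → E3) (x : E3) : ℝ := ∑ i, pderiv i (fun y => u y i) x

/-- The acceleration `(u·∇)u`. -/
noncomputable def acceleration (u : E3 → E3) (x : E3) : E3 :=
  fun i => ∑ j, u x j * pderiv j (fun y => u y i) x

/-- `U` is a steady Euler flow: the curl of `(U·∇)U` vanishes (so that `(U·∇)U` is a gradient). -/
def IsSteady (U : E3 → E3) : Prop := ∀ (i j : Fin 3) (x : E3),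
  pderiv i (fun y => acceleration U y j) x = pderiv j (fun y => acceleration U y i) x

/-- The `L²` inner product `∫ u · v dx`. -/
noncomputable def innerL2 (u v : E3 → E3) : ℝ := ∫ x, ∑ i, u x i * v x i

/-- The Dirichlet form `∫ ∇u : ∇v dx`. -/
noncomputable def dirichlet (u v : E3 → E3) : ℝ :=
  ∫ x, ∑ i, ∑ j, pderiv j (fun y => u y i) x * pderiv j (fun y => v y i) x

/-- The `i`-th component of `∂ₜu + (u·∇)u - ν Δu` at time `t` and position `x`. -/
noncomputable def residual (ν : ℝ) (u : ℝ → E3 → E3) (t : ℝ) (x : E3) (i : Fin 3) : ℝ :=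
  deriv (fun s => u s x i) t + ∑ j, u t x j * pderiv j (fun y => u t y i) x
    - ν * ∑ j, pderiv j (pderiv j (fun y => u t y i)) x

/-- Square integrable fields whose divergence vanishes in the sense of distributions. -/
structure IsSolenoidal (w : E3 → E3) : Prop where
  memL2 : ∀ i, MemLp (fun x => w x i) 2 volume
  div_free : ∀ φ : E3 → ℝ, ContDiff ℝ ∞ φ → HasCompactSupport φ →
    ∫ x, ∑ i, w x i * pderiv i φ x = 0

/-- The constraints: `w` is orthogonal to all the fields `g n i`. -/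
def Constrained (g : ℕ → Fin 3 → E3 → E3) (w : E3 → E3) : Prop :=
  ∀ (n : ℕ) (i : Fin 3), innerL2 w (g n i) = 0

/-- The linear spaces `W` of square integrable divergence-free fields satisfying the constraints
which contain all smooth compactly supported fields of the form `∑ c_n p_n`. -/
structure IsSpace (p : ℕ → E3 → E3) (g : ℕ → Fin 3 → E3 → E3) (W : Submodule ℝ (E3 → E3)) :
    Prop where
  upper : ∀ w ∈ W, IsSolenoidal w ∧ Constrained g w
  lower : ∀ v : E3 → E3, ContDiff ℝ ∞ v → HasCompactSupport v →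
    (∃ c : ℕ → ℝ, ∀ x, HasSum (fun n => c n • p n x) (v x)) → v ∈ W

/-- `f` is square integrable and `∫ f² ≤ C`. -/
def SqBound (C : ℝ) (f : E3 → ℝ) : Prop := MemLp f 2 volume ∧ ∫ x, f x ^ 2 ≤ C

/-- `u` is a solution on `[0,T)` of the Navier-Stokes equations projected on the space `W`:
it is smooth on `[0,T) × ℝ³` up to `t = 0`; `u(t)` is in `W`; `u` is bounded, and `u`, its first
and second derivatives in `x` and its time derivative are bounded in `L²`, uniformly for
`0 ≤ t ≤ s` for every `s < T`; and for `0 < t < T` the residual `∂ₜu + (u·∇)u - ν Δu` is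
orthogonal to `W` (the pressure drops out, since the fields in `W` are divergence-free). -/
structure IsProjected (W : Submodule ℝ (E3 → E3)) (ν T : ℝ) (u : ℝ → E3 → E3) : Prop where
  smooth : ContDiffOn ℝ ∞ (fun z : ℝ × E3 => u z.1 z.2) (Ico 0 T ×ˢ univ)
  mem : ∀ t ∈ Ico 0 T, u t ∈ W
  bound : ∀ s ∈ Ico 0 T, ∃ C : ℝ, ∀ t ∈ Icc 0 s, (∀ x, ‖u t x‖ ≤ C) ∧
    ∀ i, SqBound C (fun x => u t x i) ∧ (∀ j, SqBound C (pderiv j (fun y => u t y i))) ∧
      (∀ j k, SqBound C (pderiv j (pderiv k (fun y => u t y i)))) ∧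
      (0 < t → SqBound C (fun x => deriv (fun s => u s x i) t))
  eqn : ∀ t ∈ Ioo 0 T, ∀ w ∈ W, ∫ x, ∑ i, residual ν u t x i * w x i = 0

/-- `D` is the gradient of `w` in the sense of distributions, `D i j = ∂_j w_i`, and it is square
integrable. -/
def IsWeakGradient (w : E3 → E3) (D : Fin 3 → Fin 3 → E3 → ℝ) : Prop :=
  ∀ i j, MemLp (D i j) 2 volume ∧ ∀ φ : E3 → ℝ, ContDiff ℝ ∞ φ → HasCompactSupport φ →
    ∫ x, w x i * pderiv j φ x = -∫ x, D i j x * φ x

/-- The integrand `v · ∂ₜψ + v ⊗ v : ∇ψ + ν v · Δψ` of the weak formulation. -/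
noncomputable def weakIntegrand (ν : ℝ) (v ψ : ℝ → E3 → E3) (s : ℝ) (x : E3) : ℝ :=
  ∑ i, (v s x i * deriv (fun r => ψ r x i) s
    + (∑ j, v s x i * v s x j * pderiv j (fun y => ψ s y i) x)
    + ν * (v s x i * ∑ j, pderiv j (pderiv j (fun y => ψ s y i)) x))

/-- `v` is a Leray-Hopf solution on `[0,T)` of the Navier-Stokes equations projected on `W`: it is
measurable on `(0,T) × ℝ³`; `v(t)` is in `W` for all `t`; for `ν > 0` it has a square integrable
gradient for almost all `t`; the energy inequality holds at all times `t < T` (from the time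
`0`); and the equations hold in the weak sense when tested with the fields `ψ` which are smooth
on `[0,t] × ℝ³`, supported in a fixed ball and in `W` at all times. -/
structure IsLerayHopf (W : Submodule ℝ (E3 → E3)) (ν T : ℝ) (v : ℝ → E3 → E3) : Prop where
  measurable : AEStronglyMeasurable (fun z : ℝ × E3 => v z.1 z.2)
    (volume.restrict (Ioo 0 T ×ˢ univ))
  mem : ∀ t ∈ Ico 0 T, v t ∈ W
  energy : ∃ D : ℝ → Fin 3 → Fin 3 → E3 → ℝ,
    (0 < ν → ∀ᵐ s ∂(volume.restrict (Ioo 0 T)), IsWeakGradient (v s) (D s)) ∧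
    ∀ t ∈ Ico 0 T, IntervalIntegrable (fun s => ∫ x, ∑ i, ∑ j, D s i j x ^ 2) volume 0 t ∧
      innerL2 (v t) (v t) + 2 * ν * (∫ s in (0 : ℝ)..t, ∫ x, ∑ i, ∑ j, D s i j x ^ 2)
        ≤ innerL2 (v 0) (v 0)
  weak : ∀ t ∈ Ioo 0 T, ∀ ψ : ℝ → E3 → E3,
    ContDiffOn ℝ ∞ (fun z : ℝ × E3 => ψ z.1 z.2) (Icc 0 t ×ˢ univ) →
    (∃ ρ, ∀ s ∈ Icc 0 t, ∀ x, ρ < ‖x‖ → ψ s x = 0) → (∀ s ∈ Icc 0 t, ψ s ∈ W) →
    innerL2 (v t) (ψ t) - innerL2 (v 0) (ψ 0) = ∫ s in (0 : ℝ)..t, ∫ x, weakIntegrand ν v ψ s x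

/-- The modes `p n` and the constraint fields `g n i`: `p 0 = U`; the modes are smooth compactly
supported divergence-free fields, none of them zero, mutually orthogonal in `L²` and for the
Dirichlet form; the constraint fields are smooth, compactly supported, vanish near `z` and, for
`n ≥ 3`, outside the ball `|x - z| ≤ 2^(-q^(n-1))`; and all square integrable divergence-free
fields which satisfy the constraints form an admissible space (the largest one). -/
structure IsFamily (q : ℝ) (z : E3) (U : E3 → E3) (p : ℕ → E3 → E3) (g : ℕ → Fin 3 → E3 → E3) :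
    Prop where
  first : p 0 = U
  mode : ∀ n, ContDiff ℝ ∞ (p n) ∧ HasCompactSupport (p n) ∧ (∀ x, divergence (p n) x = 0) ∧
    0 < innerL2 (p n) (p n)
  orthogonal : ∀ m n, m ≠ n → innerL2 (p m) (p n) = 0 ∧ dirichlet (p m) (p n) = 0
  field : ∀ n i, ContDiff ℝ ∞ (g n i) ∧ HasCompactSupport (g n i) ∧ ∀ᶠ x in 𝓝 z, g n i x = 0
  ball : ∀ n i x, g (n + 3) i x ≠ 0 → ‖x - z‖ ≤ (2 : ℝ) ^ (-(q ^ (n + 2)))
  largest : ∃ W : Submodule ℝ (E3 → E3), IsSpace p g W ∧
    ∀ w, w ∈ W ↔ IsSolenoidal w ∧ Constrained g w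

/-- Blow-up at `z` from the datum `v` before the time `T₀`, at viscosity `ν`: there are `T ≤ T₀`
and a field `u` on `[0,T)` with `u(0) = v`, supported in a fixed ball, with
`|u(t,x)| ≤ C |x - z|^(-1-δ)`, whose `L³` norm and supremum tend to infinity as `t → T`, and which
solves the equations projected on `W` for all admissible spaces `W` at once. For each of these
spaces every solution with the datum `v` is a restriction of `u`, in particular none exists
beyond `T`; and every Leray-Hopf solution with the datum `v` coincides with `u` on `[0,T)`. -/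
def BlowsUp (δ : ℝ) (z : E3) (p : ℕ → E3 → E3) (g : ℕ → Fin 3 → E3 → E3) (ν : ℝ) (v : E3 → E3)
    (T₀ : ℝ) : Prop :=
  ∃ T, 0 < T ∧ T ≤ T₀ ∧ ∃ u : ℝ → E3 → E3, u 0 = v ∧
    (∃ ρ, ∀ t ∈ Ico 0 T, ∀ x, ρ < ‖x - z‖ → u t x = 0) ∧
    (∃ C, ∀ t ∈ Ico 0 T, ∀ x, ‖u t x‖ * ‖x - z‖ ^ (1 + δ) ≤ C) ∧
    Tendsto (fun t => ∫ x, ‖u t x‖ ^ 3) (𝓝[<] T) atTop ∧
    (∀ M, ∀ᶠ t in 𝓝[<] T, ∃ x, M < ‖u t x‖) ∧
    ∀ W : Submodule ℝ (E3 → E3), IsSpace p g W → IsProjected W ν T u ∧
      (∀ (T' : ℝ) (w : ℝ → E3 → E3), IsProjected W ν T' w → w 0 = v →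
        T' ≤ T ∧ ∀ t ∈ Ico 0 T', w t = u t) ∧
      ∀ (T' : ℝ) (w : ℝ → E3 → E3), IsLerayHopf W ν T' w → (∀ᵐ x, w 0 x = v x) →
        ∀ t ∈ Ico 0 T', t < T → ∀ᵐ x, w t x = u t x

open Pool.Agent.Run7.h407 Pool.Agent.Run7.h407.G in
theorem space_iff {p : ℕ → E3 → E3} {g : ℕ → Fin 3 → E3 → E3} {W : Submodule ℝ (E3 → E3)} :
    IsSpace p g W ↔ IsSpG p g W :=
  ⟨fun h => ⟨fun w hw => (h.upper w hw).1.memL2, fun w hw => (h.upper w hw).1.div_free,
      fun w hw => (h.upper w hw).2, h.lower⟩,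
    fun h => ⟨fun w hw => ⟨⟨h.l2 w hw, h.wdf w hw⟩, h.cs w hw⟩, h.mem⟩⟩

open Pool.Agent.Run7.h407 in
theorem proj_iff {W : Submodule ℝ (E3 → E3)} {ν T : ℝ} {u : ℝ → E3 → E3} :
    IsProjected W ν T u ↔ IsProj W ν T u :=
  ⟨fun h => ⟨⟨h.smooth, h.bound⟩, h.mem, h.eqn⟩, fun h => ⟨h.cls.sm, h.mem, h.cls.bd, h.eqn⟩⟩

open Pool.Agent.Run7.h407.LH in
theorem lerayHopf_iff {W : Submodule ℝ (E3 → E3)} {ν T : ℝ} {v : ℝ → E3 → E3} :
    IsLerayHopf W ν T v ↔ IsLH W ν T v :=
  ⟨fun h => ⟨h.measurable, h.mem, h.energy, h.weak⟩, fun h => ⟨h.meas, h.mem, h.en, h.weak⟩⟩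

open Pool.Agent.Run7.h407.G.X in
theorem family_of {q : ℝ} {z : E3} {U : E3 → E3} {p : ℕ → E3 → E3} {g : ℕ → Fin 3 → E3 → E3}
    (h : Fam q z U p g) : IsFamily q z U p g := by
  obtain ⟨Wm, hWm, hWi⟩ := h.big
  refine ⟨h.zero, h.mode, h.orth, h.field, h.ball, Wm, space_iff.2 hWm, fun w => ?_⟩
  rw [hWi]
  exact ⟨fun h => ⟨⟨h.1, h.2.1⟩, h.2.2⟩, fun h => ⟨h.1.memL2, h.1.div_free, h.2⟩⟩

open Pool.Agent.Run7.h407 Pool.Agent.Run7.h407.G.X in
theorem blowsUp_of {δ ρ ν T₀ : ℝ} (hν : 0 ≤ ν) {z : E3} {p : ℕ → E3 → E3}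
    {g : ℕ → Fin 3 → E3 → E3} {v : E3 → E3} (h : Blo δ z ρ p g ν v T₀) :
    BlowsUp δ z p g ν v T₀ := by
  obtain ⟨T, hT, hTA, u, k1, k2, k3, k4, k5, k6⟩ := h
  refine ⟨T, hT, hTA, u, k1, ⟨ρ, k2⟩, k3, k4, k5, fun W hW => ?_⟩
  obtain ⟨k7, k8⟩ := k6 W (space_iff.1 hW)
  refine ⟨proj_iff.2 k7, fun T' w hw h0 => k8 T' w (proj_iff.1 hw) h0, fun T' w hw h0 => ?_⟩
  have hu : TF T (ρ + ‖z‖) u := by
    refine ⟨k7.cls.sm, fun t ht x hx => k2 t ht x ?_⟩
    have := norm_sub_norm_le x z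
    linarith
  apply LH.lh_unique hν hu (fun w hw => (hW.upper w hw).1.memL2)
    (fun w hw => (hW.upper w hw).1.div_free) k7.mem k7.eqn (lerayHopf_iff.1 hw)
  filter_upwards [h0] with x hx
  rw [hx, k1]

open Pool.Agent.Run7.h407 Pool.Agent.Run7.h407.G.X in
theorem om_of_not_steady {U : E3 → E3} (h : ¬ IsSteady U) :
    ∃ i x, om i (adv U U) x ≠ 0 := by
  by_contra hcon
  push Not at hcon
  apply h
  intro i j x
  have h1 := wg_le (adv U U) i j x
  simp only [hcon, abs_zero, Finset.sum_const_zero] at h1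
  have h2 := abs_nonpos_iff.1 h1
  unfold wg at h2
  exact sub_eq_zero.1 h2

/-- Let `1 < q < 5/4` and `q ≤ 1 + δ/4`. Let `U` be a smooth compactly supported divergence-free
field on `ℝ³`.

(A) Suppose that `U` is not a steady Euler flow, and let `z` be a point off the support of `U`.
Then there are modes and constraint fields with `p 0 = U`, and `A₀ > 0`, such that for every
viscosity `ν ≥ 0` and every amplitude `a > 0` with `A₀ ν ≤ a` the solution with the datum `a U`
blows up at `z` before the time `A₀ / a`.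

(B) Let `z` be any point, `0 < r < 3`, `ε > 0` and `N` a bound for the viscosity. Then there are a
smooth divergence-free field `F` supported in the ball `|x - z| ≤ ε` with `∫ |F|^r ≤ ε`, and modes
and constraint fields with `p 0 = U + F`, such that for every viscosity `0 ≤ ν ≤ N` the solution
with the datum `U + F` blows up at `z` before the time `ε`.

(C) For every space `W` between the modes and the constraints and every `ν`, each solution of the
Navier-Stokes equations projected on `W` is a Leray-Hopf solution, divergence-free, and satisfies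
the energy equality. -/
theorem result (δ q : ℝ) (hq : 1 < q) (hq' : q < 5 / 4) (hδ : q ≤ 1 + δ / 4)
    (U : E3 → E3) (hU : ContDiff ℝ ∞ U) (hUc : HasCompactSupport U)
    (hUd : ∀ x, divergence U x = 0) :
    (¬ IsSteady U → ∀ z ∉ tsupport U, ∃ (p : ℕ → E3 → E3) (g : ℕ → Fin 3 → E3 → E3),
      IsFamily q z U p g ∧
      ∃ A₀ > 0, ∀ ν ≥ 0, ∀ a > 0, A₀ * ν ≤ a → BlowsUp δ z p g ν (fun x => a • U x) (A₀ / a)) ∧
    (∀ (z : E3) (r ε N : ℝ), 0 < r → r < 3 → 0 < ε → ∃ F : E3 → E3,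
      ContDiff ℝ ∞ F ∧ HasCompactSupport F ∧
      (∀ x, divergence F x = 0) ∧ (∀ x, F x ≠ 0 → ‖x - z‖ ≤ ε) ∧ ∫ x, ‖F x‖ ^ r ≤ ε ∧
      ∃ (p : ℕ → E3 → E3) (g : ℕ → Fin 3 → E3 → E3), IsFamily q z (fun x => U x + F x) p g ∧
        ∀ ν, 0 ≤ ν → ν ≤ N → BlowsUp δ z p g ν (fun x => U x + F x) ε) ∧
    (∀ (p : ℕ → E3 → E3) (g : ℕ → Fin 3 → E3 → E3) (W : Submodule ℝ (E3 → E3)),
      IsSpace p g W → ∀ (ν T : ℝ) (w : ℝ → E3 → E3), IsProjected W ν T w →
        IsLerayHopf W ν T w ∧ ∀ t ∈ Ico 0 T, (∀ x, divergence (w t) x = 0) ∧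
          innerL2 (w t) (w t) + 2 * ν * ∫ s in (0 : ℝ)..t, dirichlet (w s) (w s)
            = innerL2 (w 0) (w 0)) := by
  refine ⟨fun hUs z hz => ?_, fun z r ε N hr hr3 hε => ?_,
    fun p g W hW ν T w hw => ⟨?_, fun t ht => ?_⟩⟩
  · have hz' : ∀ᶠ x in 𝓝 z, U x = 0 := notMem_tsupport_iff_eventuallyEq.1 hz
    obtain ⟨p, g, _, h1, A₀, hA, H⟩ :=
      Run7.h407.G.X.mainA δ q hq hq' hδ ⟨hU, hUc⟩ hUd (om_of_not_steady hUs) hz'
    exact ⟨p, g, family_of h1, A₀, hA, fun ν hν a ha haν => blowsUp_of hν (H ν hν a ha haν)⟩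
  · obtain ⟨F, h1, h2, h3, h4, p, g, _, h5, h6⟩ :=
      Run7.h407.G.X.mainBz δ q hq hq' hδ ⟨hU, hUc⟩ hUd z (N := N) hr hr3 hε
    exact ⟨F, h1.sm, h1.cs, h2, h3, h4, p, g, family_of h5,
      fun ν h7 h8 => blowsUp_of h7 (h6 ν h7 h8)⟩
  · exact lerayHopf_iff.2 (Run7.h407.LH.lh_of_proj (proj_iff.1 hw)
      fun w hw => (hW.upper w hw).1.div_free)
  · exact ⟨Run7.h407.G.IsProj.dvgG (space_iff.1 hW) (proj_iff.1 hw) ht,
      Run7.h407.G.IsProj.energyG (space_iff.1 hW) (proj_iff.1 hw) ht⟩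

end Pool.Agent.Run7.h407.Kept.LogLogEveryDatum1
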