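import Mathlib
import Pool.Agent.Run7.h407.W.Fin

/-!
# Blow-up for the Navier-Stokes equations with three scalar constraints per scale

The three-dimensional Navier-Stokes equations on `ℝ³` are projected orthogonally on a space `W`
of square integrable divergence-free fields: the velocity is in `W` and the equations are tested
with all fields of `W`. The space `W` may be very large: all square integrable divergence-free
fields which are orthogonal to the dilates `g_i(r^(2n) x)`, `n ≥ 0`, of three test fields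
`g_0, g_1, g_2` and to one more test field, i.e. with three scalar constraints at each of the
scales `r^(-2n)`; or any smaller linear space which contains the test fields of the form
`∑ c_n ψ_n` with the dilates `ψ_n` of one test field `ψ`.
-/

namespace Pool.Agent.Results.MP_6bf1e5_an.SparseProjection

open Set Filter Topology MeasureTheory
open scoped ContDiff

/-- Points and vectors of `ℝ³` (with the maximum norm). -/
abbrev E3 : Type := Fin 3 → ℝ

/-- The derivative of a scalar function in the direction of the `j`-th axis. -/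
noncomputable def pderiv (j : Fin 3) (f : E3 → ℝ) (x : E3) : ℝ := fderiv ℝ f x (Pi.single j 1)

/-- The divergence of a vector field. -/
noncomputable def divergence (u : E3 → E3) (x : E3) : ℝ := ∑ i, pderiv i (fun y => u y i) x

/-- The `L²` inner product `∫ u · v dx`. -/
noncomputable def innerL2 (u v : E3 → E3) : ℝ := ∫ x, ∑ i, u x i * v x i

/-- The Dirichlet form `∫ ∇u : ∇v dx`. -/
noncomputable def dirichlet (u v : E3 → E3) : ℝ :=
  ∫ x, ∑ i, ∑ j, pderiv j (fun y => u y i) x * pderiv j (fun y => v y i) x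

/-- The dilate `s³ f(s² x)` of `f`; it has the same `L²` norm as `f`. -/
noncomputable def dilate (s : ℝ) (f : E3 → E3) (x : E3) : E3 := s ^ 3 • f (s ^ 2 • x)

/-- The `i`-th component of `∂ₜu + (u·∇)u - ν Δu` at time `t` and position `x`. -/
noncomputable def residual (ν : ℝ) (u : ℝ → E3 → E3) (t : ℝ) (x : E3) (i : Fin 3) : ℝ :=
  deriv (fun s => u s x i) t + ∑ j, u t x j * pderiv j (fun y => u t y i) x
    - ν * ∑ j, pderiv j (pderiv j (fun y => u t y i)) x

/-- Square integrable fields whose divergence vanishes in the sense of distributions. -/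
structure IsSolenoidal (w : E3 → E3) : Prop where
  memL2 : ∀ i, MemLp (fun x => w x i) 2 volume
  div_free : ∀ φ : E3 → ℝ, ContDiff ℝ ∞ φ → HasCompactSupport φ →
    ∫ x, ∑ i, w x i * pderiv i φ x = 0

/-- The constraints: `w` is orthogonal to the dilate `dilate r⁻¹ ψ` and, for all `n ≥ 0`, to the
dilates `dilate (r ^ n) (g i)` of the three fields `g 0, g 1, g 2`. -/
def Constrained (r : ℝ) (ψ : E3 → E3) (g : Fin 3 → E3 → E3) (w : E3 → E3) : Prop :=
  innerL2 w (dilate r⁻¹ ψ) = 0 ∧ ∀ (n : ℕ) (i : Fin 3), innerL2 w (dilate (r ^ n) (g i)) = 0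

/-- The linear spaces `W` of square integrable divergence-free fields satisfying the constraints
which contain all smooth compactly supported fields of the form `∑ c_n dilate (r ^ n) ψ`. -/
structure IsSpace (r : ℝ) (ψ : E3 → E3) (g : Fin 3 → E3 → E3) (W : Submodule ℝ (E3 → E3)) :
    Prop where
  upper : ∀ w ∈ W, IsSolenoidal w ∧ Constrained r ψ g w
  lower : ∀ v : E3 → E3, ContDiff ℝ ∞ v → HasCompactSupport v →
    (∃ c : ℕ → ℝ, ∀ x, HasSum (fun n => c n • dilate (r ^ n) ψ x) (v x)) → v ∈ W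

/-- `f` is square integrable and `∫ f² ≤ C`. -/
def SqBound (C : ℝ) (f : E3 → ℝ) : Prop := MemLp f 2 volume ∧ ∫ x, f x ^ 2 ≤ C

/-- `u` is a solution on `[0,T)` of the Navier-Stokes equations projected on the space `W`:
it is smooth on `[0,T) × ℝ³` up to `t = 0`; `u(t)` is in `W`; `u` is bounded, and `u`, its first
and second derivatives in `x` and its time derivative are bounded in `L²`, uniformly for
`0 ≤ t ≤ s` for every `s < T`; and for `0 < t < T` the residual `∂ₜu + (u·∇)u - ν Δu` is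
orthogonal to `W` (the pressure drops out, since the fields in `W` are divergence-free). -/
structure IsProjected (W : Submodule ℝ (E3 → E3)) (ν T : ℝ) (u : ℝ → E3 → E3) : Prop where
  smooth : ContDiffOn ℝ ∞ (fun z : ℝ × E3 => u z.1 z.2) (Ico 0 T ×ˢ univ)
  mem : ∀ t ∈ Ico 0 T, u t ∈ W
  bound : ∀ s ∈ Ico 0 T, ∃ C : ℝ, ∀ t ∈ Icc 0 s, (∀ x, ‖u t x‖ ≤ C) ∧
    ∀ i, SqBound C (fun x => u t x i) ∧ (∀ j, SqBound C (pderiv j (fun y => u t y i))) ∧
      (∀ j k, SqBound C (pderiv j (pderiv k (fun y => u t y i)))) ∧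
      (0 < t → SqBound C (fun x => deriv (fun s => u s x i) t))
  eqn : ∀ t ∈ Ioo 0 T, ∀ w ∈ W, ∫ x, ∑ i, residual ν u t x i * w x i = 0

open Pool.Agent.Run7.h407 in
theorem space_iff {r : ℝ} {ψ : E3 → E3} {g : Fin 3 → E3 → E3} {W : Submodule ℝ (E3 → E3)} :
    IsSpace r ψ g W ↔ IsSp r ψ g W :=
  ⟨fun h => ⟨fun w hw => (h.upper w hw).1.memL2, fun w hw => (h.upper w hw).1.div_free,
      fun w hw => (h.upper w hw).2.1, fun w hw => (h.upper w hw).2.2, h.lower⟩,
    fun h => ⟨fun w hw => ⟨⟨h.l2 w hw, h.wdf w hw⟩, h.c0 w hw, h.cs w hw⟩, h.mem⟩⟩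

open Pool.Agent.Run7.h407 in
theorem proj_iff {W : Submodule ℝ (E3 → E3)} {ν T : ℝ} {u : ℝ → E3 → E3} :
    IsProjected W ν T u ↔ IsProj W ν T u :=
  ⟨fun h => ⟨⟨h.smooth, h.bound⟩, h.mem, h.eqn⟩, fun h => ⟨h.cls.sm, h.mem, h.cls.bd, h.eqn⟩⟩

/-- For every `δ > 0` there are arbitrarily large ratios `r`, and for each of them a smooth
compactly supported divergence-free field `ψ ≠ 0` on `ℝ³`, whose dilates `ψ_n = dilate (r ^ n) ψ` are mutually orthogonal in `L²` and
for the Dirichlet form, and three smooth compactly supported fields `g 0, g 1, g 2`, which vanish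
near the origin, with the following properties.
* All square integrable divergence-free fields which satisfy the constraints form an admissible
  space (the largest one).
* For every admissible space `W` and every `ν`, each solution of the Navier-Stokes equations
  projected on `W` is divergence-free and satisfies the energy equality.
* There are `R, A₀ > 0` such that for every viscosity `ν ≥ 0` and every amplitude `a > 0` with
  `A₀ ν ≤ a` there are `T ≤ A₀ / a` and a field `u` on `[0,T)` with `u(0) = a ψ`, supported in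
  `|x| ≤ R`, with `|u(t,x)| ≤ C |x|^(-1-δ)`, whose `L³` norm and supremum tend to infinity as
  `t → T`, and which solves the equations projected on `W` for all admissible spaces `W` at once.
  For each of these spaces every solution with the datum `a ψ` is a restriction of `u`; in
  particular none exists beyond `T`. -/
theorem result (δ : ℝ) (hδ : 0 < δ) (M : ℝ) :
    ∃ (r : ℝ) (ψ : E3 → E3) (g : Fin 3 → E3 → E3), M < r ∧ 1 < r ∧
      ContDiff ℝ ∞ ψ ∧ HasCompactSupport ψ ∧ (∀ x, divergence ψ x = 0) ∧ 0 < innerL2 ψ ψ ∧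
      (∀ m n, m ≠ n → innerL2 (dilate (r ^ m) ψ) (dilate (r ^ n) ψ) = 0 ∧
        dirichlet (dilate (r ^ m) ψ) (dilate (r ^ n) ψ) = 0) ∧
      (∀ i, ContDiff ℝ ∞ (g i) ∧ HasCompactSupport (g i) ∧ ∀ᶠ x in 𝓝 0, g i x = 0) ∧
      (∃ W : Submodule ℝ (E3 → E3), IsSpace r ψ g W ∧
        ∀ w, w ∈ W ↔ IsSolenoidal w ∧ Constrained r ψ g w) ∧
      (∀ W : Submodule ℝ (E3 → E3), IsSpace r ψ g W → ∀ (ν T : ℝ) (w : ℝ → E3 → E3),
        IsProjected W ν T w → ∀ t ∈ Ico 0 T, (∀ x, divergence (w t) x = 0) ∧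
          innerL2 (w t) (w t) + 2 * ν * ∫ s in (0 : ℝ)..t, dirichlet (w s) (w s)
            = innerL2 (w 0) (w 0)) ∧
      ∃ R A₀ : ℝ, 0 < R ∧ 0 < A₀ ∧ ∀ ν ≥ 0, ∀ a > 0, A₀ * ν ≤ a →
        ∃ T, 0 < T ∧ T ≤ A₀ / a ∧ ∃ u : ℝ → E3 → E3,
          (∀ x, u 0 x = a • ψ x) ∧
          (∀ t ∈ Ico 0 T, ∀ x, R < ‖x‖ → u t x = 0) ∧
          (∃ C, ∀ t ∈ Ico 0 T, ∀ x, ‖u t x‖ * ‖x‖ ^ (1 + δ) ≤ C) ∧
          Tendsto (fun t => ∫ x, ‖u t x‖ ^ 3) (𝓝[<] T) atTop ∧
          (∀ M, ∀ᶠ t in 𝓝[<] T, ∃ x, M < ‖u t x‖) ∧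
          ∀ W : Submodule ℝ (E3 → E3), IsSpace r ψ g W →
            IsProjected W ν T u ∧
            ∀ (T' : ℝ) (w : ℝ → E3 → E3), IsProjected W ν T' w → (∀ x, w 0 x = a • ψ x) →
              T' ≤ T ∧ ∀ t ∈ Ico 0 T', w t = u t := by
  obtain ⟨r, ψ, g, h0, h1, h2, h3, h4, h5, h6, h7, ⟨Wm, hWm, hWi⟩, R, A₀, hR, hA, H⟩ :=
    Run7.h407.mainW δ hδ M
  refine ⟨r, ψ, g, h0, h1, h2, h3, h4, h5, h6, h7, ⟨Wm, space_iff.2 hWm, fun w => ?_⟩, ?_,
    R, A₀, hR, hA, ?_⟩
  · rw [hWi]
    exact ⟨fun h => ⟨⟨h.1, h.2.1⟩, h.2.2⟩, fun h => ⟨h.1.memL2, h.1.div_free, h.2⟩⟩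
  · intro W hW ν T w hw t ht
    exact ⟨(proj_iff.1 hw).dvg (space_iff.1 hW) ht, (proj_iff.1 hw).energy (space_iff.1 hW) ht⟩
  · intro ν hν a ha haν
    obtain ⟨T, hT, hTA, u, k1, k2, k3, k4, k5, k6⟩ := H ν hν a ha haν
    refine ⟨T, hT, hTA, u, k1, k2, k3, k4, k5, fun W hW => ?_⟩
    obtain ⟨k7, k8⟩ := k6 W (space_iff.1 hW)
    exact ⟨proj_iff.2 k7, fun T' w hw h0 => k8 T' w (proj_iff.1 hw) h0⟩

end Pool.Agent.Results.MP_6bf1e5_an.SparseProjection
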